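import Pool.Agent.Helper23_LAP.Stmts

/-!
# LAP, module CN6: the number of classes relevant for an arc, after the coins
-/

set_option autoImplicit false

namespace Pool.Agent.LAP.H54

open scoped Classical
open Pool.Agent.LAP

section coins

variable {U : Type} [Fintype U]

theorem half (u : U) (b : Bool) (g : (U → Bool) → ℝ)
    (hg : ∀ ω b', g (Function.update ω u b') = g ω) :
    2 * ∑ ω : U → Bool, (if ω u = b then g ω else 0) = ∑ ω : U → Bool, g ω := by
  have h1 : ∑ ω : U → Bool, (if ω u = b then g ω else 0) =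
      ∑ ω : U → Bool, (if ω u = !b then g ω else 0) := by
    let fl : (U → Bool) → (U → Bool) := fun ω => Function.update ω u (!(ω u))
    have hfl : ∀ ω, fl (fl ω) = ω := by
      intro ω
      funext v
      by_cases hv : v = u
      · subst hv
        simp [fl]
      · simp [fl, Function.update_of_ne hv]
    let e : (U → Bool) ≃ (U → Bool) := ⟨fl, fl, hfl, hfl⟩
    rw [← Equiv.sum_comp e]
    refine Finset.sum_congr rfl fun ω _ => ?_
    show (if fl ω u = b then g (fl ω) else 0) = _
    have h2 : g (fl ω) = g ω := hg ω _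
    have h3 : fl ω u = !(ω u) := by simp [fl]
    rw [h2, h3]
    cases b <;> cases ω u <;> simp
  have h4 : ∑ ω : U → Bool, g ω = ∑ ω : U → Bool, (if ω u = b then g ω else 0) +
      ∑ ω : U → Bool, (if ω u = !b then g ω else 0) := by
    rw [← Finset.sum_add_distrib]
    refine Finset.sum_congr rfl fun ω _ => ?_
    cases b <;> cases h : ω u <;> simp
  rw [h4, ← h1]
  ring

theorem ex_one (u : U) (b : Bool) :
    ex (fun ω : U → Bool => if ω u = b then (1 : ℝ) else 0) = 1 / 2 := by
  have h := half u b (fun _ => (1 : ℝ)) (fun _ _ => rfl)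
  have hc : (∑ _ω : U → Bool, (1 : ℝ)) = Fintype.card (U → Bool) := by simp
  have hpos : (0 : ℝ) < Fintype.card (U → Bool) := by exact_mod_cast Fintype.card_pos
  unfold ex
  rw [hc] at h
  rw [div_eq_iff hpos.ne']
  linarith

theorem ex_two {u v : U} (huv : u ≠ v) (b b' : Bool) :
    ex (fun ω : U → Bool => if ω u = b then (if ω v = b' then (1 : ℝ) else 0) else 0) =
      1 / 4 := by
  have h := half u b (fun ω => if ω v = b' then (1 : ℝ) else 0) (fun ω c => by
    rw [Function.update_of_ne huv.symm])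
  have h' := half v b' (fun _ => (1 : ℝ)) (fun _ _ => rfl)
  have hc : (∑ _ω : U → Bool, (1 : ℝ)) = Fintype.card (U → Bool) := by simp
  have hpos : (0 : ℝ) < Fintype.card (U → Bool) := by exact_mod_cast Fintype.card_pos
  unfold ex
  rw [hc] at h'
  rw [div_eq_iff hpos.ne']
  linarith

theorem ex_nonneg {f : (U → Bool) → ℝ} (h : ∀ ω, 0 ≤ f ω) : 0 ≤ ex f :=
  div_nonneg (Finset.sum_nonneg fun ω _ => h ω) (Nat.cast_nonneg _)

theorem pr_mono {S : Type} [Fintype S] {A B : Set (U → S)} (h : A ⊆ B) : pr A ≤ pr B := by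
  unfold pr
  apply div_le_div_of_nonneg_right _ (Nat.cast_nonneg _)
  exact_mod_cast Finset.card_le_card (Finset.monotone_filter_right _ fun ω _ hω => h hω)

end coins

section

variable {α β : Type} {q : ℕ}

theorem mem_dom {R : Finset (α × β)} {x : α} : x ∈ dom R ↔ ∃ a ∈ R, a.1 = x := by
  unfold dom
  simp only [Finset.mem_image]

theorem mem_ran {R : Finset (α × β)} {y : β} : y ∈ ran R ↔ ∃ a ∈ R, a.2 = y := by
  unfold ran
  simp only [Finset.mem_image]

theorem mem_cu {M : Fin q → Finset (α × β)} {rep : Fin q → α × β → α × β}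
    {sg : Fin q → α × β → Bool} {ω : Fin q × (α × β) → Bool} {c : Fin q} {l : α × β} :
    l ∈ cu M rep sg ω c ↔ l ∈ M c ∧ xor (ω (c, rep c l)) (sg c l) = true := by
  unfold cu cut rc
  simp only [Finset.mem_filter]

theorem inl_mem_locC {M : Fin q → Finset (α × β)} {rep : Fin q → α × β → α × β} {c : Fin q}
    {l : α × β} (hl : l ∈ M c) : Sum.inl l.1 ∈ locC M rep (c, rep c l) := by
  unfold locC
  simp only [Finset.mem_biUnion, Finset.mem_filter]
  exact ⟨l, ⟨hl, rfl⟩, by simp⟩

theorem inr_mem_locC {M : Fin q → Finset (α × β)} {rep : Fin q → α × β → α × β} {c : Fin q}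
    {l : α × β} (hl : l ∈ M c) : Sum.inr l.2 ∈ locC M rep (c, rep c l) := by
  unfold locC
  simp only [Finset.mem_biUnion, Finset.mem_filter]
  exact ⟨l, ⟨hl, rfl⟩, by simp⟩

theorem nr3_refl {W : Type} (r : W → W → Prop) (w : W) : nr3 r w w :=
  ⟨w, w, Or.inl rfl, Or.inl rfl, Or.inl rfl⟩

theorem nr3_of_rel {W : Type} {r : W → W → Prop} {u w : W} (h : r u w) : nr3 r u w :=
  ⟨w, w, Or.inr h, Or.inl rfl, Or.inl rfl⟩

theorem ex_mono {U : Type} [Fintype U] {f g : (U → Bool) → ℝ} (h : ∀ ω, f ω ≤ g ω) :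
    ex f ≤ ex g := by
  unfold ex
  exact div_le_div_of_nonneg_right (Finset.sum_le_sum fun ω _ => h ω) (Nat.cast_nonneg _)

variable {M : Fin q → Finset (α × β)} {rep : Fin q → α × β → α × β}
  {sg : Fin q → α × β → Bool}

theorem mem_dom_cu {ω : Fin q × (α × β) → Bool} {c : Fin q} {x : α} :
    x ∈ dom (cu M rep sg ω c) ↔
      ∃ l ∈ M c, l.1 = x ∧ xor (ω (c, rep c l)) (sg c l) = true := by
  rw [mem_dom]
  constructor
  · rintro ⟨l, hl, h1⟩
    rw [mem_cu] at hl
    exact ⟨l, hl.1, h1, hl.2⟩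
  · rintro ⟨l, hl, h1, h2⟩
    exact ⟨l, mem_cu.mpr ⟨hl, h2⟩, h1⟩

theorem mem_ran_cu {ω : Fin q × (α × β) → Bool} {c : Fin q} {y : β} :
    y ∈ ran (cu M rep sg ω c) ↔
      ∃ l ∈ M c, l.2 = y ∧ xor (ω (c, rep c l)) (sg c l) = true := by
  rw [mem_ran]
  constructor
  · rintro ⟨l, hl, h1⟩
    rw [mem_cu] at hl
    exact ⟨l, hl.1, h1, hl.2⟩
  · rintro ⟨l, hl, h1, h2⟩
    exact ⟨l, mem_cu.mpr ⟨hl, h2⟩, h1⟩

theorem dom_congr {ω ω' : Fin q × (α × β) → Bool} {x : α}
    (h : ∀ u, Sum.inl x ∈ locC M rep u → ω u = ω' u) (c : Fin q) :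
    x ∈ dom (cu M rep sg ω c) ↔ x ∈ dom (cu M rep sg ω' c) := by
  rw [mem_dom_cu, mem_dom_cu]
  constructor
  · rintro ⟨l, hl, h1, h2⟩
    refine ⟨l, hl, h1, ?_⟩
    rw [← h _ (h1 ▸ inl_mem_locC hl)]
    exact h2
  · rintro ⟨l, hl, h1, h2⟩
    refine ⟨l, hl, h1, ?_⟩
    rw [h _ (h1 ▸ inl_mem_locC hl)]
    exact h2

theorem ran_congr {ω ω' : Fin q × (α × β) → Bool} {y : β}
    (h : ∀ u, Sum.inr y ∈ locC M rep u → ω u = ω' u) (c : Fin q) :
    y ∈ ran (cu M rep sg ω c) ↔ y ∈ ran (cu M rep sg ω' c) := by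
  rw [mem_ran_cu, mem_ran_cu]
  constructor
  · rintro ⟨l, hl, h1, h2⟩
    refine ⟨l, hl, h1, ?_⟩
    rw [← h _ (h1 ▸ inr_mem_locC hl)]
    exact h2
  · rintro ⟨l, hl, h1, h2⟩
    refine ⟨l, hl, h1, ?_⟩
    rw [h _ (h1 ▸ inr_mem_locC hl)]
    exact h2

theorem xor_true {b c : Bool} (h : xor b c = true) : b = !c := by
  cases b <;> cases c <;> simp_all

theorem cnt_eq {p : Fin q → Prop} (I : Finset (Fin q)) (h : ∀ c, p c → c ∈ I) :
    (((Finset.univ.filter fun c => p c).card : ℕ) : ℝ) = ∑ c ∈ I, if p c then (1 : ℝ) else 0 := by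
  rw [Finset.card_filter]
  push_cast
  symm
  apply Finset.sum_subset (Finset.subset_univ I)
  intro c _ hc
  rw [if_neg fun hp => hc (h c hp)]

/-- only the coordinates of the class `c` matter -/
theorem dom_congr_class {ω ω' : Fin q × (α × β) → Bool} {x : α} {c : Fin q}
    (h : ∀ u, u.1 = c → ω u = ω' u) :
    x ∈ dom (cu M rep sg ω c) ↔ x ∈ dom (cu M rep sg ω' c) := by
  rw [mem_dom_cu, mem_dom_cu]
  simp only [h (c, rep c _) rfl]

theorem ran_congr_class {ω ω' : Fin q × (α × β) → Bool} {y : β} {c : Fin q}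
    (h : ∀ u, u.1 = c → ω u = ω' u) :
    y ∈ ran (cu M rep sg ω c) ↔ y ∈ ran (cu M rep sg ω' c) := by
  rw [mem_ran_cu, mem_ran_cu]
  simp only [h (c, rep c _) rfl]

end

theorem cn6 (hTUP : TUPStmt) : CN6Stmt := by
  intro k L q D δ η r T Rr ζ P P' prm α β _ _ E R R' X Y M rep sg pre hRE a ha
  right
  have haE : a ∈ E := hRE (pre.sub ha)
  have hadj : sadj E (Sum.inl a.1) (Sum.inr a.2) := haE
  have hadj' : sadj E (Sum.inr a.2) (Sum.inl a.1) := haE
  have hL : (10 : ℝ) ^ 4 ≤ L := by exact_mod_cast prm.L4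
  have hL0 : (0 : ℝ) < L := by linarith
  refine ⟨⟨⟨Sum.inl a.1, by simp⟩, ?_⟩, ⟨Finset.univ.filter fun u =>
    Sum.inl a.1 ∈ locC M rep u ∨ Sum.inr a.2 ∈ locC M rep u, ?_, ?_⟩, ?_⟩
  · intro u hu v hv
    simp only [Finset.mem_insert, Finset.mem_singleton] at hu hv
    rcases hu with rfl | rfl <;> rcases hv with rfl | rfl
    · exact .refl
    · exact .single ⟨by simp, nr3_of_rel hadj⟩
    · exact .single ⟨by simp, nr3_of_rel hadj'⟩
    · exact .refl
  · intro ω ω' hω hA
    have h1 : ∀ c, a.1 ∈ dom (cu M rep sg ω' c) ↔ a.1 ∈ dom (cu M rep sg ω c) := fun c =>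
      (dom_congr (fun u hu => hω u (Finset.mem_filter.mpr ⟨Finset.mem_univ _, Or.inl hu⟩)) c).symm
    have h2 : ∀ c, a.2 ∈ ran (cu M rep sg ω' c) ↔ a.2 ∈ ran (cu M rep sg ω c) := fun c =>
      (ran_congr (fun u hu => hω u (Finset.mem_filter.mpr ⟨Finset.mem_univ _, Or.inr hu⟩)) c).symm
    simp only [Set.mem_ofPred_eq, h1, h2] at hA ⊢
    exact hA
  · intro u hu
    rw [Finset.mem_filter] at hu
    rcases hu.2 with h | h
    · exact ⟨_, h, Sum.inl a.1, by simp, nr3_refl _ _⟩
    · exact ⟨_, h, Sum.inr a.2, by simp, nr3_refl _ _⟩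
  · let f : Fin q → (Fin q × (α × β) → Bool) → ℝ := fun c ω =>
      if a.1 ∈ dom (cu M rep sg ω c) ∧ a.2 ∈ ran (cu M rep sg ω c) then 1 else 0
    let I : Finset (Fin q) := Finset.univ.filter fun c => a.1 ∈ X c ∧ a.2 ∈ Y c
    let Bk : Fin q → Finset (Fin q × (α × β)) := fun c => Finset.univ.filter fun u => u.1 = c
    have hmean : ∀ c, ex (f c) ≤ 1 / 4 := by
      intro c
      by_cases h1 : ∃ l ∈ M c, l.1 = a.1
      · by_cases h2 : ∃ l ∈ M c, l.2 = a.2
        · obtain ⟨l1, hl1, e1⟩ := h1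
          obtain ⟨l2, hl2, e2⟩ := h2
          have hne : l1 ≠ l2 := by
            rintro rfl
            have : l1 = a := Prod.ext e1 e2
            exact (Finset.disjoint_left.mp (pre.mR' c)) (this ▸ hl1) ha
          have d1 : ∀ ω, a.1 ∈ dom (cu M rep sg ω c) → ω (c, rep c l1) = !(sg c l1) := by
            intro ω h
            obtain ⟨l, hl, h3, h4⟩ := mem_dom_cu.mp h
            have : l.2 = l1.2 := (pre.mp c).1 a.1 l.2 l1.2 (by rw [← h3]; exact hl)
              (by rw [← e1]; exact hl1)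
            have h5 : l = l1 := Prod.ext (h3.trans e1.symm) this
            rw [h5] at h4
            exact xor_true h4
          have d2 : ∀ ω, a.2 ∈ ran (cu M rep sg ω c) → ω (c, rep c l2) = !(sg c l2) := by
            intro ω h
            obtain ⟨l, hl, h3, h4⟩ := mem_ran_cu.mp h
            have : l.1 = l2.1 := (pre.mp c).2 l.1 l2.1 a.2 (by rw [← h3]; exact hl)
              (by rw [← e2]; exact hl2)
            have h5 : l = l2 := Prod.ext this (h3.trans e2.symm)
            rw [h5] at h4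
            exact xor_true h4
          by_cases hr : rep c l1 = rep c l2
          · have h0 : ∀ ω, f c ω ≤ 0 := by
              intro ω
              show (if _ then (1 : ℝ) else 0) ≤ 0
              rw [if_neg]
              rintro ⟨h3, h4⟩
              have h5 := d1 ω h3
              have h6 := d2 ω h4
              rw [hr, h6] at h5
              exact pre.cn c l1 hl1 l2 hl2 hne hr (Bool.not_inj h5).symm
            have h1 := ex_mono h0
            have h2 : ex (fun _ : Fin q × (α × β) → Bool => (0 : ℝ)) = 0 := by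
              unfold ex
              simp
            linarith
          · have huv : (c, rep c l1) ≠ (c, rep c l2) := fun h => hr (Prod.ext_iff.mp h).2
            have h0 : ∀ ω, f c ω ≤ (fun ω : Fin q × (α × β) → Bool =>
                if ω (c, rep c l1) = !(sg c l1) then
                  (if ω (c, rep c l2) = !(sg c l2) then (1 : ℝ) else 0) else 0) ω := by
              intro ω
              show (if _ then (1 : ℝ) else 0) ≤ if _ then (if _ then (1 : ℝ) else 0) else 0
              by_cases h : a.1 ∈ dom (cu M rep sg ω c) ∧ a.2 ∈ ran (cu M rep sg ω c)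
              · rw [if_pos h, if_pos (d1 ω h.1), if_pos (d2 ω h.2)]
              · rw [if_neg h]
                split_ifs <;> norm_num
            exact (ex_mono h0).trans (ex_two huv _ _).le
        · have h0 : ∀ ω, f c ω ≤ 0 := by
            intro ω
            show (if _ then (1 : ℝ) else 0) ≤ 0
            rw [if_neg]
            rintro ⟨_, h4⟩
            obtain ⟨l, hl, h5, _⟩ := mem_ran_cu.mp h4
            exact h2 ⟨l, hl, h5⟩
          have h1 := ex_mono h0
          have h2 : ex (fun _ : Fin q × (α × β) → Bool => (0 : ℝ)) = 0 := by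
            unfold ex
            simp
          linarith
      · have h0 : ∀ ω, f c ω ≤ 0 := by
          intro ω
          show (if _ then (1 : ℝ) else 0) ≤ 0
          rw [if_neg]
          rintro ⟨h4, _⟩
          obtain ⟨l, hl, h5, _⟩ := mem_dom_cu.mp h4
          exact h1 ⟨l, hl, h5⟩
        have h1 := ex_mono h0
        have h2 : ex (fun _ : Fin q × (α × β) → Bool => (0 : ℝ)) = 0 := by
          unfold ex
          simp
        linarith
    have hI : ∀ ω c, a.1 ∈ dom (cu M rep sg ω c) ∧ a.2 ∈ ran (cu M rep sg ω c) → c ∈ I := by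
      rintro ω c ⟨h1, h2⟩
      obtain ⟨l, hl, e1, _⟩ := mem_dom_cu.mp h1
      obtain ⟨l', hl', e2, _⟩ := mem_ran_cu.mp h2
      exact Finset.mem_filter.mpr ⟨Finset.mem_univ _, e1 ▸ (pre.mR c l hl).2.1,
        e2 ▸ (pre.mR c l' hl').2.2⟩
    have hT := hTUP (Fin q × (α × β)) Bool (Fin q) I f Bk 1 (1 / (L : ℝ)) (2 * (L : ℝ) ^ 3)
      (Rr / 4) one_pos (by positivity) (by rw [div_le_one hL0]; linarith)
      (fun c _ ω => by
        show 0 ≤ (if _ then (1 : ℝ) else 0) ∧ (if _ then (1 : ℝ) else 0) ≤ 1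
        split_ifs <;> norm_num)
      (fun c _ ω ω' h => by
        have h' : ∀ u : Fin q × (α × β), u.1 = c → ω u = ω' u := fun u hu =>
          h u (Finset.mem_filter.mpr ⟨Finset.mem_univ _, hu⟩)
        show (if _ then (1 : ℝ) else 0) = if _ then (1 : ℝ) else 0
        simp only [dom_congr_class h', ran_congr_class h'])
      (fun i _ j _ hij => by
        rw [Finset.disjoint_left]
        intro u hu hu'
        exact hij ((Finset.mem_filter.mp hu).2.symm.trans (Finset.mem_filter.mp hu').2))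
      (by
        calc ∑ c ∈ I, ex (f c) ≤ ∑ c ∈ I, (1 / 4 : ℝ) := Finset.sum_le_sum fun c _ => hmean c
          _ = (I.card : ℝ) / 4 := by rw [Finset.sum_const, nsmul_eq_mul]; ring
          _ ≤ Rr / 4 := by
            have := pre.rl a (pre.sub ha)
            have h2 : (I.card : ℝ) ≤ Rr := this
            linarith)
    refine (pr_mono ?_).trans (hT.trans (le_of_eq ?_))
    · intro ω hω
      have h1 := not_le.mp hω
      have h2 := cnt_eq I (hI ω)
      refine h1.le.trans (le_of_eq ?_)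
      convert h2
    · congr 1
      rw [Finset.card_pair (by simp)]
      push_cast
      field_simp

end Pool.Agent.LAP.H54
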