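import Pool.Agent.Helper23_LAP.Stmts

/-!
# LAP, module HAP: the condition (H) for all pairs
-/

set_option autoImplicit false

namespace Pool.Agent.LAP.H54

open scoped Classical
open Pool.Agent.LAP

theorem ain_inter {α β : Type} (R : Finset (α × β)) (X : Finset α) (Y : Finset β)
    (A : Finset α) (B : Finset β) : ain R X Y (X ∩ A) (Y ∩ B) = ain R X Y A B := by
  unfold ain
  apply Finset.filter_congr
  intro a _
  simp only [Finset.mem_inter]
  tauto

theorem aou_inter {α β : Type} (R : Finset (α × β)) (X : Finset α) (Y : Finset β)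
    (A : Finset α) (B : Finset β) : aou R X Y (X ∩ A) (Y ∩ B) = aou R X Y A B := by
  unfold aou
  apply Finset.filter_congr
  intro a _
  simp only [Finset.mem_inter]
  tauto

theorem crs_inter {α β : Type} (R : Finset (α × β)) (X : Finset α) (Y : Finset β)
    (A : Finset α) (B : Finset β) : crs R X Y (X ∩ A) (Y ∩ B) = crs R X Y A B := by
  unfold crs
  rw [ain_inter, aou_inter]

theorem dsc_inter {α β : Type} (R : Finset (α × β)) (X : Finset α) (Y : Finset β) (D : ℝ)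
    (A : Finset α) (B : Finset β) : dsc R X Y D (X ∩ A) (Y ∩ B) = dsc R X Y D A B := by
  unfold dsc
  rw [ain_inter, aou_inter, ← Finset.inter_assoc, ← Finset.inter_assoc, Finset.inter_self,
    Finset.inter_self]

/-- the arithmetic of 2.5 -/
theorem hap_arith {l D δ η r x a b Δ s d : ℝ} (hl : 10 ^ 4 ≤ l) (hD : l ^ 19 ≤ D)
    (hd0 : 0 ≤ δ) (hd1 : δ * l ^ 3 ≤ 8) (he0 : 0 ≤ η) (he1 : η * l ^ 3 ≤ 30) (hr0 : 0 ≤ r)
    (hr1 : r ≤ l ^ 15) (hx : 0 ≤ x) (ha : 0 ≤ a) (hΔ : 0 ≤ Δ)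
    (hs : s * D ≤ 18 * l ^ 2 * a) (hW : Δ * D ≤ 12 * x + a)
    (h : d ≤ η * (x + (1 + δ) * D * Δ) + r * (b + Δ) + 14 * l ^ 11 * s * D + δ * D * Δ) :
    d ≤ 1 / l ^ 2 * x + r * b + (252 * l ^ 13 + 1) * a := by
  have l0 : 0 < l := by linarith
  have l3 : 0 < l ^ 3 := by positivity
  have hD0 : 0 < D := lt_of_lt_of_le (by positivity) hD
  set e : ℝ := 1 / l ^ 3 with he
  have e0 : 0 < e := by positivity
  have e1 : e ≤ 1 / 1000 := by
    rw [he]
    apply one_div_le_one_div_of_le (by norm_num)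
    nlinarith [pow_le_pow_left₀ (by norm_num : (0:ℝ) ≤ 10 ^ 4) hl 3]
  have hη : η ≤ 30 * e := by
    rw [he, mul_one_div, le_div_iff₀ l3]
    exact he1
  have hδ : δ ≤ 8 * e := by
    rw [he, mul_one_div, le_div_iff₀ l3]
    exact hd1
  have hr : r ≤ e * D := by
    have h1 : l ^ 15 * l ^ 3 ≤ D := by
      calc l ^ 15 * l ^ 3 = l ^ 18 := by ring
        _ ≤ l ^ 19 := pow_le_pow_right₀ (by linarith) (by norm_num)
        _ ≤ D := hD
    rw [he, one_div_mul_eq_div, le_div_iff₀ l3]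
    exact (mul_le_mul_of_nonneg_right hr1 l3.le).trans h1
  set W : ℝ := Δ * D with hWd
  have W0 : 0 ≤ W := mul_nonneg hΔ hD0.le
  have t1 : η * (x + (1 + δ) * D * Δ) ≤ 30 * e * (x + (1 + 8 * e) * W) := by
    have : (1 + δ) * D * Δ ≤ (1 + 8 * e) * W := by
      rw [hWd, show (1 + δ) * D * Δ = (1 + δ) * (Δ * D) by ring]
      exact mul_le_mul_of_nonneg_right (by linarith) W0
    refine mul_le_mul hη (by linarith) ?_ (by positivity)
    have : 0 ≤ (1 + δ) * D * Δ := by positivity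
    linarith
  have t2 : r * (b + Δ) ≤ r * b + e * W := by
    have : r * Δ ≤ e * D * Δ := mul_le_mul_of_nonneg_right hr hΔ
    have h2 : e * D * Δ = e * W := by rw [hWd]; ring
    linarith [mul_add r b Δ]
  have t3 : 14 * l ^ 11 * s * D ≤ 252 * l ^ 13 * a := by
    have := mul_le_mul_of_nonneg_left hs (by positivity : 0 ≤ 14 * l ^ 11)
    calc 14 * l ^ 11 * s * D = 14 * l ^ 11 * (s * D) := by ring
      _ ≤ 14 * l ^ 11 * (18 * l ^ 2 * a) := this
      _ = 252 * l ^ 13 * a := by ring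
  have t4 : δ * D * Δ ≤ 8 * e * W := by
    rw [hWd, show δ * D * Δ = δ * (Δ * D) by ring]
    exact mul_le_mul_of_nonneg_right hδ W0
  have t5 : 30 * e * (x + (1 + 8 * e) * W) + e * W + 8 * e * W ≤ 30 * e * x + 50 * e * W := by
    have : 30 * (1 + 8 * e) + 9 ≤ 50 := by linarith
    have h2 := mul_le_mul_of_nonneg_right this (mul_nonneg e0.le W0)
    linarith [h2, (by ring : 30 * e * (x + (1 + 8 * e) * W) = 30 * e * x + 30 * (1 + 8 * e) * (e * W))]
  have t6 : 50 * e * W ≤ 50 * e * (12 * x + a) := mul_le_mul_of_nonneg_left hW (by positivity)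
  have t7 : 630 * e * x ≤ 1 / l ^ 2 * x := by
    apply mul_le_mul_of_nonneg_right _ hx
    rw [he, mul_one_div, div_le_div_iff₀ l3 (by positivity)]
    calc 630 * l ^ 2 ≤ l * l ^ 2 := mul_le_mul_of_nonneg_right (by linarith) (by positivity)
      _ = 1 * l ^ 3 := by ring
  have t8 : 50 * e * a ≤ 1 * a := mul_le_mul_of_nonneg_right (by linarith) ha
  linarith

theorem card_le_symm {γ : Type} (A B : Finset γ) :
    ((B.card : ℕ) : ℝ) ≤ A.card + (symmDiff A B).card := by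
  have h : B ⊆ A ∪ symmDiff A B := by
    intro x hx
    by_cases hA : x ∈ A
    · exact Finset.mem_union_left _ hA
    · exact Finset.mem_union_right _ (Finset.mem_symmDiff.mpr (Or.inr ⟨hx, hA⟩))
  exact_mod_cast (Finset.card_le_card h).trans (Finset.card_union_le _ _)

theorem hap (hCHG : CHGStmt) (hALQ : ALQStmt) (hFPB : FPBStmt) : HAPStmt := by
  intro k L q D δ η r T Rr ζ P P' prm α β _ _ E R X Y hcl hH A hA B hB a ha
  have hL : (10 : ℝ) ^ 4 ≤ L := by exact_mod_cast prm.L4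
  have hL1 : 1 ≤ L := le_trans (by norm_num) prm.L4
  have hD0 : 0 < D := lt_of_lt_of_le (by positivity) prm.D1
  have hk : (k : ℝ) ≤ 2 ^ L := by exact_mod_cast prm.k2
  obtain ⟨Q, -, hQ1, hQ2⟩ := hFPB α β E R X Y L D δ A B prm.L4 prm.D1 (prm.D2.trans hk)
    prm.d0 prm.d1 hcl hA hB
  obtain ⟨q1, q2⟩ := hALQ α β E R X Y L D η r hL1 hcl.sub hH Q
  set A' := X ∩ clA E (L ^ 2) Q with hA'
  set B' := Y ∩ clB E (L ^ 2) Q with hB'
  obtain ⟨c1, c2⟩ := hCHG α β E R X Y D δ A A' B B' hD0.le prm.d0 hcl hA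
    Finset.inter_subset_left hB Finset.inter_subset_left
  rw [hA', hB', dsc_inter, ← hA', ← hB'] at c1
  rw [show crs R X Y A' B' = crs R X Y (clA E (L ^ 2) Q) (clB E (L ^ 2) Q) from
    crs_inter R X Y _ _] at c2
  have hcq : cq E R X Y L Q = ((crs R X Y (clA E (L ^ 2) Q) (clB E (L ^ 2) Q)).card : ℝ) := rfl
  rw [← hcq] at c2
  set Δ : ℝ := ((symmDiff A A').card : ℝ) + (symmDiff B B').card with hΔ
  have Δ0 : 0 ≤ Δ := by positivity
  have sA := card_le_symm A A'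
  have sB := card_le_symm B B'
  have sA' : ((A'.card : ℕ) : ℝ) ≤ A.card + Δ := by
    have : (0 : ℝ) ≤ (symmDiff B B').card := Nat.cast_nonneg _
    linarith
  have sB' : ((B'.card : ℕ) : ℝ) ≤ B.card + Δ := by
    have : (0 : ℝ) ≤ (symmDiff A A').card := Nat.cast_nonneg _
    linarith
  have hsD : (Q.card : ℝ) * D ≤ 18 * (L : ℝ) ^ 2 * a := by
    rw [le_div_iff₀ hD0] at hQ1
    refine hQ1.trans ?_
    have := mul_le_mul_of_nonneg_left ha (by positivity : 0 ≤ 9 * (L : ℝ) ^ 2)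
    linarith
  have hWD : Δ * D ≤ 12 * ((crs R X Y A B).card : ℝ) + a := by
    have := mul_le_mul_of_nonneg_right hQ2 hD0.le
    have h2 : (12 * ((crs R X Y A B).card : ℝ) / D + ((A.card : ℝ) + B.card) / (2 * D)) * D =
        12 * ((crs R X Y A B).card : ℝ) + ((A.card : ℝ) + B.card) / 2 := by
      field_simp
    rw [h2] at this
    linarith
  have ha0 : 0 ≤ a := by
    have h1 : (0 : ℝ) ≤ (A.card : ℝ) := Nat.cast_nonneg _
    have h2 : (0 : ℝ) ≤ (B.card : ℝ) := Nat.cast_nonneg _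
    linarith
  have hx0 : (0 : ℝ) ≤ ((crs R X Y A B).card : ℝ) := Nat.cast_nonneg _
  have c1' := abs_le.mp c1
  have hc : η * cq E R X Y L Q ≤
      η * (((crs R X Y A B).card : ℝ) + (1 + δ) * D * Δ) :=
    mul_le_mul_of_nonneg_left c2 prm.e0
  have rB := mul_le_mul_of_nonneg_left sB' prm.r0
  have rA := mul_le_mul_of_nonneg_left sA' prm.r0
  constructor
  · refine hap_arith hL prm.D1 prm.d0 prm.d1 prm.e0 prm.e1 prm.r0 prm.r1 hx0 ha0 Δ0 hsD hWD ?_
    linarith [c1'.1]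
  · refine hap_arith hL prm.D1 prm.d0 prm.d1 prm.e0 prm.e1 prm.r0 prm.r1 hx0 ha0 Δ0 hsD hWD ?_
    linarith [c1'.2]

end Pool.Agent.LAP.H54
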